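import Pool.Agent.H798.BV.Stm3
import Pool.Agent.H345.BV.Intp

set_option autoImplicit false

/-!
# The lower bound of the integral for a zero close to the centre, `1 < s ≤ 2`

The elementary lemmas `factor2`, `factor3`, `fac`, `int_exp` and the structure of the proof are due to
helper345 (the case `s = 2`).
-/

namespace Pool.Agent.H894.BV

open Pool.Agent.H798.BV
open Pool.Agent.H345.BV (factor2 factor3 fac int_exp)

/-- upper bound of `|1 - x|` for all `x` -/
theorem facs (s : ℝ) (hs : 1 < s) (hs2 : s ≤ 2) (x : ℂ) :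
    ‖1 - x‖ ≤ Real.exp (-x.re + 4 * ‖x‖ ^ s) := by
  have h0 := norm_nonneg x
  rcases le_or_gt ‖x‖ (1 / 2) with hx | hx
  · obtain ⟨r, hr, hr2⟩ := factor2 x hx
    rw [hr2, Complex.norm_exp]
    apply Real.exp_le_exp.2
    have h2 : r.re ≤ ‖r‖ := Complex.re_le_norm r
    have h3 : ‖x‖ ^ 2 ≤ ‖x‖ ^ s := by
      rcases eq_or_lt_of_le h0 with h | h
      · rw [← h, Real.zero_rpow (by linarith)]
        norm_num
      · rw [← Real.rpow_two]
        exact Real.rpow_le_rpow_of_exponent_ge h (by linarith) hs2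
    have h4 : 0 ≤ ‖x‖ ^ s := Real.rpow_nonneg h0 s
    rw [Complex.add_re, Complex.neg_re]
    linarith
  · have h1 : ‖1 - x‖ ≤ Real.exp ‖x‖ := by
      have h2 := norm_sub_le (1 : ℂ) x
      rw [norm_one] at h2
      have h3 := Real.add_one_le_exp ‖x‖
      linarith
    have h2 : x.re ≤ ‖x‖ := Complex.re_le_norm x
    refine h1.trans (Real.exp_le_exp.2 ?_)
    have hpos : 0 < ‖x‖ := by linarith
    have h5 : ‖x‖ ≤ 2 * ‖x‖ ^ s := by
      have e : ‖x‖ ^ s = ‖x‖ * ‖x‖ ^ (s - 1) := by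
        rw [← Real.rpow_one_add' h0 (by linarith)]
        congr 1
        ring
      have h6 : 1 / 2 ≤ ‖x‖ ^ (s - 1) := by
        rcases le_or_gt 1 ‖x‖ with h7 | h7
        · have := Real.one_le_rpow h7 (show 0 ≤ s - 1 by linarith)
          linarith
        · have h8 : ‖x‖ ^ (1 : ℝ) ≤ ‖x‖ ^ (s - 1) :=
            Real.rpow_le_rpow_of_exponent_ge hpos h7.le (by linarith)
          rw [Real.rpow_one] at h8
          linarith
      rw [e]
      nlinarith
    linarith

/-- the bound of the product for all `0 ≤ u ≤ a` -/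
theorem prod_le (s : ℝ) (hs : 1 < s) (hs2 : s ≤ 2) (μ K a : ℝ) (hμ : 0 < μ) (hK : 0 < K) (ha : 0 < a)
    (ha1 : a ≤ 1) (ha2 : (144 + 8 * K) * a ≤ μ) (m : ℕ) (l : Fin m → ℂ) (L q : ℂ)
    (hL : ∑ k, l k = m * L) (hq : ∑ k, (if 2 < ‖l k‖ then 0 else (l k) ^ 2) = m * q)
    (h : ∀ τ : ℝ, 0 ≤ τ → τ ≤ 1 → μ * a * τ ≤ τ * L.re + a * τ ^ 2 * q.re / 2)
    (hb : ∑ k, (if 2 < ‖l k‖ then ‖l k‖ ^ s else 0) ≤ K * (a ^ 2 * m)) (u : ℝ) (hu0 : 0 ≤ u)
    (hua : u ≤ a) :
    ‖∏ k, (1 - (u : ℂ) * l k)‖ ≤ Real.exp (-(m * a * μ / 2 * u)) := by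
  have hm : (0 : ℝ) ≤ m := m.cast_nonneg
  have hus : 0 ≤ u ^ s := Real.rpow_nonneg hu0 s
  have h1 : ‖∏ k, (1 - (u : ℂ) * l k)‖ ≤ ∏ k, Real.exp (-((u : ℂ) * l k).re -
      (((u ^ 2 : ℝ) : ℂ) * (if 2 < ‖l k‖ then 0 else (l k) ^ 2)).re / 2 +
        (4 * u ^ s * (if 2 < ‖l k‖ then ‖l k‖ ^ s else 0) + 72 * u ^ 3)) := by
    rw [norm_prod]
    refine Finset.prod_le_prod (fun k _ => norm_nonneg _) fun k _ => ?_
    have e : ‖(u : ℂ) * l k‖ = u * ‖l k‖ := by
      rw [norm_mul, Complex.norm_real, Real.norm_eq_abs, abs_of_nonneg hu0]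
    split_ifs with hk
    · have h2 := facs s hs hs2 ((u : ℂ) * l k)
      rw [e, Real.mul_rpow hu0 (norm_nonneg _)] at h2
      refine h2.trans (Real.exp_le_exp.2 ?_)
      rw [mul_zero, Complex.zero_re]
      have : 0 ≤ 72 * u ^ 3 := by positivity
      linarith
    · push Not at hk
      have h2 := (fac ((u : ℂ) * l k)).1
      rw [e, mul_pow u ‖l k‖ 3] at h2
      refine h2.trans (Real.exp_le_exp.2 ?_)
      have h3 : ‖l k‖ ^ 3 ≤ 8 := by
        calc ‖l k‖ ^ 3 ≤ 2 ^ 3 := pow_le_pow_left₀ (norm_nonneg _) hk 3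
          _ = 8 := by norm_num
      have h4 := mul_le_mul_of_nonneg_left h3 (show 0 ≤ u ^ 3 by positivity)
      have e2 : (((u : ℂ) * l k) ^ 2).re = (((u ^ 2 : ℝ) : ℂ) * (l k) ^ 2).re := by
        push_cast
        rw [mul_pow]
      rw [e2]
      linarith
  rw [← Real.exp_sum] at h1
  refine h1.trans (Real.exp_le_exp.2 ?_)
  have h3 : ∑ k, (-((u : ℂ) * l k).re -
      (((u ^ 2 : ℝ) : ℂ) * (if 2 < ‖l k‖ then 0 else (l k) ^ 2)).re / 2 +
        (4 * u ^ s * (if 2 < ‖l k‖ then ‖l k‖ ^ s else 0) + 72 * u ^ 3)) =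
      -(u * (m * L.re)) - u ^ 2 * (m * q.re) / 2 +
        (4 * u ^ s * ∑ k, (if 2 < ‖l k‖ then ‖l k‖ ^ s else 0) + m * (72 * u ^ 3)) := by
    rw [Finset.sum_add_distrib, Finset.sum_sub_distrib, Finset.sum_neg_distrib,
      Finset.sum_add_distrib, ← Finset.mul_sum, Finset.sum_const, Finset.card_univ, Fintype.card_fin,
      nsmul_eq_mul]
    have e1 : ∑ k, ((u : ℂ) * l k).re = u * (m * L.re) := by
      have : ∑ k, ((u : ℂ) * l k).re = ((u : ℂ) * ∑ k, l k).re := by
        rw [Finset.mul_sum, Complex.re_sum]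
      rw [this, hL, Complex.re_ofReal_mul, ← Complex.ofReal_natCast, Complex.re_ofReal_mul]
    have e2 : ∑ k, (((u ^ 2 : ℝ) : ℂ) * (if 2 < ‖l k‖ then 0 else (l k) ^ 2)).re / 2 =
        u ^ 2 * (m * q.re) / 2 := by
      have : ∑ k, (((u ^ 2 : ℝ) : ℂ) * (if 2 < ‖l k‖ then 0 else (l k) ^ 2)).re / 2 =
          (((u ^ 2 : ℝ) : ℂ) * ∑ k, (if 2 < ‖l k‖ then 0 else (l k) ^ 2)).re / 2 := by
        rw [Finset.mul_sum, Complex.re_sum, Finset.sum_div]
      rw [this, hq, Complex.re_ofReal_mul, ← Complex.ofReal_natCast, Complex.re_ofReal_mul]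
    rw [e1, e2]
  rw [h3]
  have hτ := h (u / a) (by positivity) ((div_le_one ha).2 hua)
  have e1 : μ * a * (u / a) = μ * u := by field_simp
  have e2 : u / a * L.re + a * (u / a) ^ 2 * q.re / 2 = (u * L.re + u ^ 2 * q.re / 2) / a := by
    field_simp
  rw [e1, e2, le_div_iff₀ ha] at hτ
  have h5 := mul_le_mul_of_nonneg_left hτ hm
  have h7 : u ^ s ≤ u := by
    rcases eq_or_lt_of_le hu0 with h | h
    · rw [← h, Real.zero_rpow (by linarith)]
    · have := Real.rpow_le_rpow_of_exponent_ge h (show u ≤ 1 by linarith) hs.le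
      rwa [Real.rpow_one] at this
  have h8 : 4 * u ^ s * ∑ k, (if 2 < ‖l k‖ then ‖l k‖ ^ s else 0) ≤ 4 * u * (K * (a ^ 2 * m)) := by
    calc 4 * u ^ s * ∑ k, (if 2 < ‖l k‖ then ‖l k‖ ^ s else 0) ≤ 4 * u ^ s * (K * (a ^ 2 * m)) :=
          mul_le_mul_of_nonneg_left hb (by positivity)
      _ ≤ 4 * u * (K * (a ^ 2 * m)) := by
          apply mul_le_mul_of_nonneg_right _ (by positivity)
          linarith
  have h6 : 4 * u * (K * (a ^ 2 * m)) + m * (72 * u ^ 3) ≤ m * a * μ / 2 * u := by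
    have h9 : 4 * K * a ^ 2 + 72 * u ^ 2 ≤ a * μ / 2 := by
      have h9 : u ^ 2 ≤ a * a := by nlinarith
      have h10 := mul_le_mul_of_nonneg_left ha2 ha.le
      nlinarith
    have h10 := mul_le_mul_of_nonneg_left h9 (mul_nonneg hm hu0)
    nlinarith
  nlinarith

/-- (INTQ) -/
theorem t_INTQ : S_INTQ := by
  intro s hs hs2 μ K hμ hK
  obtain ⟨ε, hε⟩ : ∃ ε : ℝ, ε = min (μ / (16 * K)) (1 / 4) := ⟨_, rfl⟩
  have hε0 : 0 < ε := by rw [hε]; exact lt_min (by positivity) (by norm_num)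
  have hε1 : ε ≤ μ / (16 * K) := by rw [hε]; exact min_le_left _ _
  have hε2 : ε ≤ 1 / 4 := by rw [hε]; exact min_le_right _ _
  obtain ⟨K₁, hK₁⟩ : ∃ K₁ : ℝ, K₁ = 2 / (μ * ε) := ⟨_, rfl⟩
  have hK10 : 0 < K₁ := by rw [hK₁]; positivity
  have hexp : Real.exp (-(μ * K₁ / 2)) ≤ ε := by
    have e : μ * K₁ / 2 = ε⁻¹ := by rw [hK₁]; field_simp
    rw [e, Real.exp_neg]
    rw [inv_le_comm₀ (Real.exp_pos _) hε0]
    have := Real.add_one_le_exp ε⁻¹
    linarith
  -- the size of the errors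
  obtain ⟨η, hη⟩ : ∃ η : ℝ, η = min 1 (1 / (16 * K * K₁)) := ⟨_, rfl⟩
  have hη0 : 0 < η := by rw [hη]; exact lt_min one_pos (by positivity)
  have hη1 : η ≤ 1 := by rw [hη]; exact min_le_left _ _
  have hη2 : η ≤ 1 / (16 * K * K₁) := by rw [hη]; exact min_le_right _ _
  have hK1s : 0 < K₁ ^ s := Real.rpow_pos_of_pos hK10 s
  obtain ⟨C₂, hC₂⟩ : ∃ C₂ : ℝ, C₂ = K * (2 * K₁) ^ s + 2 * K * K₁ ^ s / η := ⟨_, rfl⟩
  have h2K : 0 < (2 * K₁) ^ s := Real.rpow_pos_of_pos (by positivity) s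
  have hC20 : 0 < C₂ := by rw [hC₂]; positivity
  have hC2a : K * (2 * K₁) ^ s ≤ C₂ := by
    rw [hC₂]
    have : 0 ≤ 2 * K * K₁ ^ s / η := by positivity
    linarith
  have hC2b : 2 * K * K₁ ^ s / η ≤ C₂ := by
    rw [hC₂]
    have : 0 ≤ K * (2 * K₁) ^ s := by positivity
    linarith
  refine ⟨min (min 1 (1 / (2 * K))) (μ / (144 + 8 * K)),
    C₂ ^ (1 / (s - 1)) + 8 * K₁ ^ 2 / η + 4 * K₁ + 1, ?_, ?_⟩
  · exact lt_min (lt_min one_pos (by positivity)) (by positivity)
  intro m a ha haa hT l hLn h hb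
  have ha1 : a ≤ 1 := haa.trans ((min_le_left _ _).trans (min_le_left _ _))
  have ha2 : a ≤ 1 / (2 * K) := haa.trans ((min_le_left _ _).trans (min_le_right _ _))
  have ha3 : a ≤ μ / (144 + 8 * K) := haa.trans (min_le_right _ _)
  rw [le_div_iff₀ (by positivity)] at ha2 ha3
  have hp3 : 0 < C₂ ^ (1 / (s - 1)) := Real.rpow_pos_of_pos hC20 _
  have hp2 : 0 < 8 * K₁ ^ 2 / η := by positivity
  have hT1 : 1 ≤ m * a ^ 2 := by linarith
  have hT2 : 4 * K₁ ≤ m * a ^ 2 := by linarith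
  have hT3 : 8 * K₁ ^ 2 / η ≤ m * a ^ 2 := by linarith
  have hT4 : C₂ ^ (1 / (s - 1)) ≤ m * a ^ 2 := by linarith
  have hm : 0 < (m : ℝ) := by
    have h2 : 0 < (m : ℝ) * a ^ 2 := by linarith
    exact pos_of_mul_pos_left h2 (by positivity)
  have hmc : (m : ℂ) ≠ 0 := by exact_mod_cast hm.ne'
  obtain ⟨T, hTdef⟩ : ∃ T : ℝ, T = m * a ^ 2 := ⟨_, rfl⟩
  have hT0 : 0 < T := by rw [hTdef]; positivity
  have hTs : C₂ ≤ T ^ (s - 1) := by
    rw [← hTdef] at hT4
    have h1 := Real.rpow_le_rpow hp3.le hT4 (show 0 ≤ s - 1 by linarith)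
    rw [← Real.rpow_mul hC20.le, one_div, inv_mul_cancel₀ (by linarith), Real.rpow_one] at h1
    exact h1
  have hTs0 : 0 < T ^ (s - 1) := Real.rpow_pos_of_pos hT0 _
  obtain ⟨L, hL⟩ : ∃ L : ℂ, L = (∑ k, l k) / m := ⟨_, rfl⟩
  obtain ⟨q, hq⟩ : ∃ q : ℂ, q = (∑ k, (if 2 < ‖l k‖ then 0 else (l k) ^ 2)) / m := ⟨_, rfl⟩
  rw [← hL] at hLn
  simp only [← hL, ← hq] at h
  have hL' : ∑ k, l k = m * L := by rw [hL]; field_simp
  have hq' : ∑ k, (if 2 < ‖l k‖ then 0 else (l k) ^ 2) = m * q := by rw [hq]; field_simp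
  have hma : 0 < (m : ℝ) * a := by positivity
  -- the real part of `L`
  have hLre : μ * a ≤ L.re := by
    by_contra hcon
    push Not at hcon
    obtain ⟨d, hd⟩ : ∃ d : ℝ, d = μ * a - L.re := ⟨_, rfl⟩
    have hd0 : 0 < d := by rw [hd]; linarith
    obtain ⟨τ, hτ⟩ : ∃ τ : ℝ, τ = min 1 (d / (a * (|q.re| + 1))) := ⟨_, rfl⟩
    have hτ0 : 0 < τ := by rw [hτ]; exact lt_min one_pos (by positivity)
    have hτ1 : τ ≤ 1 := by rw [hτ]; exact min_le_left _ _
    have hτ2 : τ ≤ d / (a * (|q.re| + 1)) := by rw [hτ]; exact min_le_right _ _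
    rw [le_div_iff₀ (by positivity)] at hτ2
    have h1 := h τ hτ0.le hτ1
    have h2 : μ * a ≤ L.re + a * τ * q.re / 2 := by
      have h3 : τ * (μ * a) ≤ τ * (L.re + a * τ * q.re / 2) := by nlinarith
      exact le_of_mul_le_mul_left h3 hτ0
    have h3 : q.re ≤ |q.re| := le_abs_self _
    have h4 : a * τ * q.re ≤ a * τ * (|q.re| + 1) :=
      mul_le_mul_of_nonneg_left (by linarith) (by positivity)
    nlinarith
  have hLre0 : 0 < L.re := lt_of_lt_of_le (by positivity) hLre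
  have hL0 : L ≠ 0 := by
    intro h0
    rw [h0, Complex.zero_re] at hLre0
    exact lt_irrefl _ hLre0
  obtain ⟨u₁, hu₁⟩ : ∃ u₁ : ℝ, u₁ = K₁ / (m * a) := ⟨_, rfl⟩
  have hu10 : 0 < u₁ := by rw [hu₁]; positivity
  have hu1T : u₁ = K₁ * a / T := by
    rw [hu₁, hTdef]
    field_simp
  have hu1K : u₁ ≤ K₁ / T := by
    rw [hu1T]
    apply div_le_div_of_nonneg_right _ hT0.le
    nlinarith
  have hu1a : u₁ ≤ a := by
    rw [hu₁, div_le_iff₀ hma]
    have e : a * (m * a) = m * a ^ 2 := by ring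
    rw [e]
    linarith
  -- the sum over the large `l k`
  have hbig : u₁ ^ s * (K * (a ^ 2 * m)) ≤ K * K₁ ^ s / T ^ (s - 1) := by
    have h1 : u₁ ^ s ≤ (K₁ / T) ^ s := Real.rpow_le_rpow hu10.le hu1K (by linarith)
    rw [Real.div_rpow hK10.le hT0.le] at h1
    have e1 : T ^ s = T * T ^ (s - 1) := by
      rw [← Real.rpow_one_add' hT0.le (by linarith)]
      congr 1
      ring
    have e2 : K * (a ^ 2 * m) = K * T := by rw [hTdef]; ring
    rw [e2]
    calc u₁ ^ s * (K * T) ≤ K₁ ^ s / T ^ s * (K * T) :=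
          mul_le_mul_of_nonneg_right h1 (by positivity)
      _ = K * K₁ ^ s / T ^ (s - 1) := by
          rw [e1]
          field_simp
  have hbig1 : K * K₁ ^ s / T ^ (s - 1) ≤ η / 2 := by
    rw [div_le_iff₀ hTs0]
    have h1 : 2 * K * K₁ ^ s ≤ C₂ * η := (div_le_iff₀ hη0).1 hC2b
    have h2 : C₂ * η ≤ T ^ (s - 1) * η := mul_le_mul_of_nonneg_right hTs hη0.le
    linarith
  have hbig2 : K * K₁ ^ s / T ^ (s - 1) ≤ (1 / 2) ^ s := by
    rw [div_le_iff₀ hTs0]
    have h1 : K * (2 * K₁) ^ s ≤ T ^ (s - 1) := hC2a.trans hTs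
    rw [Real.mul_rpow (by norm_num) hK10.le] at h1
    have e : ((1 / 2 : ℝ)) ^ s * 2 ^ s = 1 := by
      rw [← Real.mul_rpow (by norm_num) (by norm_num)]
      norm_num
    have h2 : 0 < ((1 / 2 : ℝ)) ^ s := Real.rpow_pos_of_pos (by norm_num) s
    have h3 := mul_le_mul_of_nonneg_left h1 h2.le
    have e2 : (1 / 2 : ℝ) ^ s * (K * (2 ^ s * K₁ ^ s)) = K * K₁ ^ s := by
      calc (1 / 2 : ℝ) ^ s * (K * (2 ^ s * K₁ ^ s)) = ((1 / 2 : ℝ) ^ s * 2 ^ s) * (K * K₁ ^ s) := by
            ring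
        _ = K * K₁ ^ s := by rw [e, one_mul]
    rw [e2] at h3
    exact h3
  have hsm1 : 4 * K₁ ^ 2 / T ≤ η / 2 := by
    rw [div_le_iff₀ hT0]
    have h1 : 8 * K₁ ^ 2 ≤ m * a ^ 2 * η := (div_le_iff₀ hη0).1 hT3
    rw [hTdef]
    linarith
  -- the part `u ≤ u₁`
  have hsmall : ∀ u : ℝ, 0 ≤ u → u ≤ u₁ →
      ‖∏ k, (1 - (u : ℂ) * l k) - Complex.exp (-(m * L) * u)‖ ≤ 2 * η := by
    intro u hu0 hu
    have hus : u ^ s ≤ u₁ ^ s := Real.rpow_le_rpow hu0 hu (by linarith)
    have hus0 : 0 ≤ u ^ s := Real.rpow_nonneg hu0 s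
    have hx : ∀ k, ‖(u : ℂ) * l k‖ ≤ 1 / 2 := by
      intro k
      have e : ‖(u : ℂ) * l k‖ = u * ‖l k‖ := by
        rw [norm_mul, Complex.norm_real, Real.norm_eq_abs, abs_of_nonneg hu0]
      rw [e]
      rcases le_or_gt ‖l k‖ 2 with h2 | h2
      · have h3 : u * ‖l k‖ ≤ K₁ / T * 2 :=
          mul_le_mul (hu.trans hu1K) h2 (norm_nonneg _) (by positivity)
        refine h3.trans ?_
        rw [div_mul_eq_mul_div, div_le_iff₀ hT0, hTdef]
        linarith
      · have h3 : (if 2 < ‖l k‖ then ‖l k‖ ^ s else 0) ≤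
            ∑ j, (if 2 < ‖l j‖ then ‖l j‖ ^ s else 0) :=
          Finset.single_le_sum (f := fun j => if 2 < ‖l j‖ then ‖l j‖ ^ s else 0)
            (fun j _ => by
              show 0 ≤ (if 2 < ‖l j‖ then ‖l j‖ ^ s else 0)
              split_ifs
              · exact Real.rpow_nonneg (norm_nonneg _) s
              · exact le_rfl) (Finset.mem_univ k)
        rw [if_pos h2] at h3
        have h4 : (u * ‖l k‖) ^ s ≤ (1 / 2) ^ s := by
          rw [Real.mul_rpow hu0 (norm_nonneg _)]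
          calc u ^ s * ‖l k‖ ^ s ≤ u₁ ^ s * (K * (a ^ 2 * m)) :=
                mul_le_mul hus (h3.trans hb) (Real.rpow_nonneg (norm_nonneg _) s)
                  (Real.rpow_nonneg hu10.le s)
            _ ≤ (1 / 2) ^ s := hbig.trans hbig2
        by_contra hcon
        push Not at hcon
        have h5 := Real.rpow_lt_rpow (by norm_num : (0 : ℝ) ≤ 1 / 2) hcon (by linarith : 0 < s)
        linarith
    choose r hr1 hr2 using fun k => factor2 ((u : ℂ) * l k) (hx k)
    have hP : ∏ k, (1 - (u : ℂ) * l k) = Complex.exp (-(m * L) * u + ∑ k, r k) := by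
      rw [Finset.prod_congr rfl fun k _ => hr2 k, ← Complex.exp_sum]
      congr 1
      rw [Finset.sum_add_distrib, Finset.sum_neg_distrib, ← Finset.mul_sum, hL']
      ring
    have hR : ‖∑ k, r k‖ ≤ η := by
      refine (norm_sum_le _ _).trans ?_
      calc ∑ k, ‖r k‖ ≤ ∑ k, (4 * u ^ 2 + u ^ s * (if 2 < ‖l k‖ then ‖l k‖ ^ s else 0)) := by
            refine Finset.sum_le_sum fun k _ => (hr1 k).trans ?_
            have e : ‖(u : ℂ) * l k‖ = u * ‖l k‖ := by
              rw [norm_mul, Complex.norm_real, Real.norm_eq_abs, abs_of_nonneg hu0]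
            have hxk := hx k
            rw [e] at hxk ⊢
            split_ifs with hk
            · have h3 : 0 ≤ u * ‖l k‖ := by positivity
              have h4 : (u * ‖l k‖) ^ 2 ≤ (u * ‖l k‖) ^ s := by
                rcases eq_or_lt_of_le h3 with h | h
                · rw [← h, Real.zero_rpow (by linarith)]
                  norm_num
                · rw [← Real.rpow_two]
                  exact Real.rpow_le_rpow_of_exponent_ge h (by linarith) hs2
              rw [Real.mul_rpow hu0 (norm_nonneg _)] at h4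
              nlinarith [sq_nonneg u]
            · push Not at hk
              rw [mul_zero, add_zero, mul_pow]
              have h4 : ‖l k‖ ^ 2 ≤ 4 := by
                nlinarith [norm_nonneg (l k)]
              nlinarith [sq_nonneg u]
        _ = m * (4 * u ^ 2) + u ^ s * ∑ k, (if 2 < ‖l k‖ then ‖l k‖ ^ s else 0) := by
            rw [Finset.sum_add_distrib, Finset.sum_const, Finset.card_univ,
              Fintype.card_fin, nsmul_eq_mul, Finset.mul_sum]
        _ ≤ 4 * K₁ ^ 2 / T + K * K₁ ^ s / T ^ (s - 1) := by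
            apply add_le_add
            · have h3 : u ^ 2 ≤ u₁ ^ 2 := by gcongr
              calc (m : ℝ) * (4 * u ^ 2) ≤ m * (4 * u₁ ^ 2) := by
                    apply mul_le_mul_of_nonneg_left _ hm.le
                    linarith
                _ = 4 * K₁ ^ 2 / T := by
                    rw [hu₁, hTdef]
                    field_simp
            · refine le_trans ?_ hbig
              apply mul_le_mul hus hb _ (Real.rpow_nonneg hu10.le s)
              apply Finset.sum_nonneg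
              intro k _
              split_ifs
              · exact Real.rpow_nonneg (norm_nonneg _) s
              · exact le_rfl
        _ ≤ η := by linarith
    have hR1 : ‖∑ k, r k‖ ≤ 1 := hR.trans hη1
    rw [hP, Complex.exp_add]
    have e : Complex.exp (-(m * L) * u) * Complex.exp (∑ k, r k) - Complex.exp (-(m * L) * u) =
        Complex.exp (-(m * L) * u) * (Complex.exp (∑ k, r k) - 1) := by ring
    rw [e, norm_mul]
    have h1 : ‖Complex.exp (-(m * L) * u)‖ ≤ 1 := by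
      rw [Complex.norm_exp, Real.exp_le_one_iff]
      have e1 : (-(m * L) * (u : ℂ)).re = -(m * u * L.re) := by
        have e2 : -(m * L) * (u : ℂ) = -(((m * u : ℝ) : ℂ) * L) := by
          push_cast; ring
        rw [e2, Complex.neg_re, Complex.re_ofReal_mul]
      rw [e1]
      have : 0 ≤ m * u * L.re := by positivity
      linarith
    have h2 := Complex.norm_exp_sub_one_le hR1
    calc ‖Complex.exp (-(m * L) * u)‖ * ‖Complex.exp (∑ k, r k) - 1‖ ≤ 1 * (2 * ‖∑ k, r k‖) :=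
          mul_le_mul h1 h2 (norm_nonneg _) zero_le_one
      _ ≤ _ := by linarith
  have hQc : Continuous fun u : ℝ => ∏ k, (1 - (u : ℂ) * l k) := by fun_prop
  have hEc : Continuous fun u : ℝ => Complex.exp (-(m * L) * u) := by fun_prop
  have herr1 : ‖(∫ u in (0:ℝ)..u₁, ∏ k, (1 - (u : ℂ) * l k)) -
      ∫ u in (0:ℝ)..u₁, Complex.exp (-(m * L) * u)‖ ≤ 1 / (8 * K) / (m * a) := by
    rw [← intervalIntegral.integral_sub (hQc.intervalIntegrable _ _) (hEc.intervalIntegrable _ _)]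
    refine (intervalIntegral.norm_integral_le_of_norm_le_const
      (C := 2 * η) ?_).trans ?_
    · intro u hu
      rw [Set.uIoc_of_le hu10.le] at hu
      exact hsmall u hu.1.le hu.2
    · rw [sub_zero, abs_of_pos hu10, hu₁]
      have e : 2 * η * (K₁ / (m * a)) = 2 * η * K₁ / (m * a) := by
        field_simp
      rw [e]
      apply div_le_div_of_nonneg_right _ hma.le
      calc 2 * η * K₁ ≤ 2 * (1 / (16 * K * K₁)) * K₁ := by gcongr
        _ = 1 / (8 * K) := by
            field_simp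
            norm_num
  have herr2 : ‖∫ u in u₁..a, ∏ k, (1 - (u : ℂ) * l k)‖ ≤ 1 / (8 * K) / (m * a) := by
    refine (intervalIntegral.norm_integral_le_of_norm_le (g := fun u =>
      Real.exp (-(m * a * μ / 2 * u))) hu1a ?_ ?_).trans ?_
    · filter_upwards with u hu
      exact prod_le s hs hs2 μ K a hμ hK ha ha1 (by linarith) m l L q hL' hq' h hb u
        (hu10.le.trans hu.1.le) hu.2
    · apply Continuous.intervalIntegrable
      fun_prop
    · refine (int_exp _ _ _ (by positivity)).trans ?_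
      have e : m * a * μ / 2 * u₁ = μ * K₁ / 2 := by
        rw [hu₁]
        field_simp
      rw [e]
      have e2 : Real.exp (-(μ * K₁ / 2)) / (m * a * μ / 2) =
          2 / μ * Real.exp (-(μ * K₁ / 2)) / (m * a) := by
        field_simp
      rw [e2]
      apply div_le_div_of_nonneg_right _ hma.le
      calc 2 / μ * Real.exp (-(μ * K₁ / 2)) ≤ 2 / μ * (μ / (16 * K)) :=
            mul_le_mul_of_nonneg_left (hexp.trans hε1) (by positivity)
        _ = 1 / (8 * K) := by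
            field_simp
            norm_num
  -- the main term
  have hc0 : (-(m * L) : ℂ) ≠ 0 := neg_ne_zero.2 (mul_ne_zero hmc hL0)
  have hmain : 7 / (8 * K) / (m * a) ≤ ‖∫ u in (0:ℝ)..u₁, Complex.exp (-(m * L) * u)‖ := by
    rw [integral_exp_mul_complex hc0, norm_div]
    have hden : ‖(-(m * L) : ℂ)‖ ≤ K * (m * a) := by
      rw [norm_neg, norm_mul, Complex.norm_natCast]
      have := mul_le_mul_of_nonneg_left hLn hm.le
      linarith
    have hnum : 7 / 8 ≤ ‖Complex.exp (-(m * L) * u₁) -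
        Complex.exp (-(m * L) * (0 : ℝ))‖ := by
      rw [Complex.ofReal_zero, mul_zero, Complex.exp_zero, norm_sub_rev]
      have h1 : ‖Complex.exp (-(m * L) * u₁)‖ ≤ 1 / 8 := by
        rw [Complex.norm_exp]
        have e : (-(m * L) * (u₁ : ℂ)).re = -(m * u₁ * L.re) := by
          have e1 : -(m * L) * (u₁ : ℂ) = -(((m * u₁ : ℝ) : ℂ) * L) := by
            push_cast
            ring
          rw [e1, Complex.neg_re, Complex.re_ofReal_mul]
        rw [e]
        have h2 : μ * K₁ ≤ m * u₁ * L.re := by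
          have h3 : m * u₁ * (μ * a) ≤ m * u₁ * L.re :=
            mul_le_mul_of_nonneg_left hLre (by positivity)
          have h4 : m * u₁ * (μ * a) = μ * K₁ := by
            rw [hu₁]
            field_simp
          linarith
        have h3 : Real.exp (-(μ * K₁)) ≤ 1 / 16 := by
          have e2 : Real.exp (-(μ * K₁)) = Real.exp (-(μ * K₁ / 2)) * Real.exp (-(μ * K₁ / 2)) := by
            rw [← Real.exp_add]
            congr 1
            ring
          rw [e2]
          have h5 := hexp.trans hε2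
          have h6 := (Real.exp_pos (-(μ * K₁ / 2))).le
          nlinarith
        have h4 := Real.exp_le_exp.2 (show -(m * u₁ * L.re) ≤ -(μ * K₁) by linarith)
        linarith
      have h2 := norm_sub_norm_le (1 : ℂ) (Complex.exp (-(m * L) * u₁))
      rw [norm_one] at h2
      linarith
    calc 7 / (8 * K) / (m * a) = 7 / 8 / (K * (m * a)) := by
          field_simp
      _ ≤ ‖Complex.exp (-(m * L) * u₁) - Complex.exp (-(m * L) * (0 : ℝ))‖ / (K * (m * a)) := by
          apply div_le_div_of_nonneg_right hnum (by positivity)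
      _ ≤ _ := by
          apply div_le_div_of_nonneg_left (norm_nonneg _) (norm_pos_iff.2 hc0) hden
  have hsplit : ∫ u in (0:ℝ)..a, ∏ k, (1 - (u : ℂ) * l k) =
      (∫ u in (0:ℝ)..u₁, ∏ k, (1 - (u : ℂ) * l k)) + ∫ u in u₁..a, ∏ k, (1 - (u : ℂ) * l k) :=
    (intervalIntegral.integral_add_adjacent_intervals (hQc.intervalIntegrable _ _)
      (hQc.intervalIntegrable _ _)).symm
  have hfin : 5 / (8 * K) / (m * a) ≤ ‖∫ u in (0:ℝ)..a, ∏ k, (1 - (u : ℂ) * l k)‖ := by
    rw [hsplit]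
    obtain ⟨A, hA⟩ : ∃ A : ℂ, A = ∫ u in (0:ℝ)..u₁, ∏ k, (1 - (u : ℂ) * l k) := ⟨_, rfl⟩
    obtain ⟨B, hB⟩ : ∃ B : ℂ, B = ∫ u in u₁..a, ∏ k, (1 - (u : ℂ) * l k) := ⟨_, rfl⟩
    obtain ⟨C, hC⟩ : ∃ C : ℂ, C = ∫ u in (0:ℝ)..u₁, Complex.exp (-(m * L) * u) := ⟨_, rfl⟩
    rw [← hA, ← hC] at herr1
    rw [← hB] at herr2
    rw [← hC] at hmain
    rw [← hA, ← hB]
    have h1 : ‖C‖ ≤ ‖A + B‖ + ‖A - C‖ + ‖B‖ := by
      have e : C = (A + B) - (A - C) - B := by ring
      calc ‖C‖ = ‖(A + B) - (A - C) - B‖ := by rw [← e]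
        _ ≤ ‖(A + B) - (A - C)‖ + ‖B‖ := norm_sub_le _ _
        _ ≤ _ := by
          have := norm_sub_le (A + B) (A - C)
          linarith
    have h2 : 5 / (8 * K) / (m * a) = 7 / (8 * K) / (m * a) - 1 / (8 * K) / (m * a) -
        1 / (8 * K) / (m * a) := by
      field_simp
      norm_num
    linarith
  rw [norm_mul]
  have hm1 : ‖(m : ℂ) + 1‖ = m + 1 := by
    have : ((m : ℂ) + 1) = ((m + 1 : ℕ) : ℂ) := by push_cast; ring
    rw [this, Complex.norm_natCast]
    push_cast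
    ring
  rw [hm1]
  calc (1 : ℝ) < (m + 1) * (5 / (8 * K) / (m * a)) := by
        rw [div_div, mul_div_assoc', lt_div_iff₀ (by positivity)]
        nlinarith [mul_le_mul_of_nonneg_left ha2 hm.le]
    _ ≤ _ := mul_le_mul_of_nonneg_left hfin (by positivity)

end Pool.Agent.H894.BV
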